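import Pool.Agent.Helper27.Mess.Defs
import Pool.Agent.Helper28.Mess.NullHomotopy

/-!
# MS-10: independent central elements are at most as many as the length of the resolution
-/

set_option autoImplicit false

namespace Pool.Agent.Helper27.Mess

open Finset
open scoped IsMulCommutative

universe u v w

section K

variable {Γ : Type u} [Group Γ] {r : ℕ} (a : Fin r → Subgroup.center Γ) (j : ℕ)

/-- The additive span of all `a i x - x`, `i < j`. -/
def ms10K (M : Type*) [AddCommGroup M] [Module (MonoidAlgebra ℤ Γ) M] : AddSubgroup M :=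
  AddSubgroup.closure {y | ∃ i : Fin r, (i : ℕ) < j ∧ ∃ x, y = act (a i : Γ) x - x}

/-- The subgroup generated by the `a i`, `i < j`. -/
def ms10N : Subgroup Γ := Subgroup.closure {g | ∃ i : Fin r, (i : ℕ) < j ∧ g = (a i : Γ)}

variable {M : Type*} [AddCommGroup M] [Module (MonoidAlgebra ℤ Γ) M]
  {M' : Type*} [AddCommGroup M'] [Module (MonoidAlgebra ℤ Γ) M']

theorem ms10K_of {i : Fin r} (hi : (i : ℕ) < j) (x : M) : act (a i : Γ) x - x ∈ ms10K a j M :=
  AddSubgroup.subset_closure ⟨i, hi, x, rfl⟩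

theorem ms10K_map (f : M →ₗ[MonoidAlgebra ℤ Γ] M') {y : M} (hy : y ∈ ms10K a j M) :
    f y ∈ ms10K a j M' := by
  unfold ms10K at hy
  induction hy using AddSubgroup.closure_induction with
  | mem y hy =>
    obtain ⟨i, hi, x, rfl⟩ := hy
    rw [map_sub, map_act]
    exact ms10K_of a j hi _
  | zero => rw [map_zero]; exact zero_mem _
  | add x y _ _ hx hy => rw [map_add]; exact add_mem hx hy
  | neg x _ hx => rw [map_neg]; exact neg_mem hx

theorem ms10K_zero {y : M} (hy : y ∈ ms10K a 0 M) : y = 0 := by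
  unfold ms10K at hy
  induction hy using AddSubgroup.closure_induction with
  | mem y hy =>
    obtain ⟨i, hi, x, rfl⟩ := hy
    exact absurd hi (Nat.not_lt_zero _)
  | zero => rfl
  | add x y _ _ hx hy => rw [hx, hy, add_zero]
  | neg x _ hx => rw [hx, neg_zero]

theorem ms10K_mono {j' : ℕ} (hj : j ≤ j') {y : M} (hy : y ∈ ms10K a j M) : y ∈ ms10K a j' M := by
  refine AddSubgroup.closure_mono ?_ hy
  rintro y ⟨i, hi, x, rfl⟩
  exact ⟨i, lt_of_lt_of_le hi hj, x, rfl⟩

theorem ms10K_succ {i : Fin r} {y : M} (hy : y ∈ ms10K a (i + 1) M) :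
    ∃ k ∈ ms10K a i M, ∃ g : M, y = k + (act (a i : Γ) g - g) := by
  unfold ms10K at hy
  induction hy using AddSubgroup.closure_induction with
  | mem y hy =>
    obtain ⟨i', hi, x, rfl⟩ := hy
    rcases Nat.lt_succ_iff_lt_or_eq.1 hi with h | h
    · exact ⟨_, ms10K_of a i h x, 0, by simp⟩
    · obtain rfl : i' = i := Fin.ext h
      exact ⟨0, zero_mem _, x, by simp⟩
  | zero => exact ⟨0, zero_mem _, 0, by simp⟩
  | add x y _ _ hx hy =>
    obtain ⟨k, hk, g, rfl⟩ := hx
    obtain ⟨k', hk', g', rfl⟩ := hy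
    refine ⟨k + k', add_mem hk hk', g + g', ?_⟩
    rw [act_add]; abel
  | neg x _ hx =>
    obtain ⟨k, hk, g, rfl⟩ := hx
    refine ⟨-k, neg_mem hk, -g, ?_⟩
    rw [act_neg]; abel

theorem ms10K_of_mem_N {n : Γ} (hn : n ∈ ms10N a j) (x : M) : act n x - x ∈ ms10K a j M := by
  unfold ms10N at hn
  induction hn using Subgroup.closure_induction generalizing x with
  | mem n hn =>
    obtain ⟨i, hi, rfl⟩ := hn
    exact ms10K_of a j hi x
  | one => simp
  | mul n m _ _ hn hm =>
    have := add_mem (hn (act m x)) (hm x)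
    rw [act_mul]
    simpa using this
  | inv n _ hn =>
    have := neg_mem (hn (act n⁻¹ x))
    simpa using this

theorem ms10N_le_center : ms10N a j ≤ Subgroup.center Γ := by
  unfold ms10N
  rw [Subgroup.closure_le]
  rintro g ⟨i, hi, rfl⟩
  exact (a i).2

instance ms10N_normal : (ms10N a j).Normal := by
  refine ⟨fun n hn g => ?_⟩
  have h := Subgroup.mem_center_iff.1 (ms10N_le_center a j hn) g
  rw [h]
  simpa using hn

theorem ms10N_prod {g : Γ} (hg : g ∈ ms10N a j) :
    ∃ m : Fin r → ℤ, (∀ i : Fin r, j ≤ (i : ℕ) → m i = 0) ∧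
      ((∏ i, a i ^ m i : Subgroup.center Γ) : Γ) = g := by
  unfold ms10N at hg
  induction hg using Subgroup.closure_induction with
  | mem n hn =>
    obtain ⟨i, hi, rfl⟩ := hn
    refine ⟨Pi.single i 1, fun i' hi' => ?_, ?_⟩
    · rw [Pi.single_eq_of_ne]
      rintro rfl
      exact absurd hi (not_lt.2 hi')
    · congr 1
      rw [Finset.prod_eq_single i]
      · simp
      · intro b _ hb
        rw [Pi.single_eq_of_ne hb]; simp
      · intro h; exact absurd (Finset.mem_univ i) h
  | one => exact ⟨0, fun _ _ => rfl, by simp⟩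
  | mul n m _ _ hn hm =>
    obtain ⟨m₁, h₁, e₁⟩ := hn
    obtain ⟨m₂, h₂, e₂⟩ := hm
    refine ⟨m₁ + m₂, fun i hi => by simp [h₁ i hi, h₂ i hi], ?_⟩
    rw [← e₁, ← e₂, ← Subgroup.coe_mul, ← Finset.prod_mul_distrib]
    simp [zpow_add]
  | inv n _ hn =>
    obtain ⟨m₁, h₁, e₁⟩ := hn
    refine ⟨-m₁, fun i hi => by simp [h₁ i hi], ?_⟩
    rw [← e₁, ← Subgroup.coe_inv, ← Finset.prod_inv_distrib]
    simp

theorem ms10_infinite (ha : ∀ m : Fin r → ℤ, ∏ j, a j ^ m j = 1 → m = 0) (i : Fin r) (k : ℕ)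
    (hk : 0 < k) : ((a i : Γ)) ^ k ∉ ms10N a i := by
  intro h
  obtain ⟨m, hm, e⟩ := ms10N_prod a i h
  set e' : Fin r → ℤ := Pi.single i (k : ℤ) with he'
  have h1 : ∏ l, a l ^ (m - e') l = 1 := by
    have h2 : ∏ l, a l ^ (m - e') l = (∏ l, a l ^ m l) * (∏ l, a l ^ e' l)⁻¹ := by
      rw [← Finset.prod_inv_distrib, ← Finset.prod_mul_distrib]
      refine Finset.prod_congr rfl fun l _ => ?_
      rw [Pi.sub_apply, zpow_sub]
    have h3 : ∏ l, a l ^ e' l = a i ^ k := by
      rw [Finset.prod_eq_single i]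
      · simp [he']
      · intro b _ hb
        rw [he', Pi.single_eq_of_ne hb]; simp
      · intro h; exact absurd (Finset.mem_univ i) h
    have h4 : ∏ l, a l ^ m l = a i ^ k := by
      apply Subtype.ext
      rw [e]; simp
    rw [h2, h3, h4, mul_inv_cancel]
  have h5 := congrFun (ha _ h1) i
  rw [Pi.sub_apply, hm i le_rfl, he', Pi.single_eq_same, Pi.zero_apply] at h5
  omega

/-- The push-forward to the quotient by `N`. -/
noncomputable def ms10p : MonoidAlgebra ℤ Γ →+ (Γ ⧸ ms10N a j →₀ ℤ) where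
  toFun x := Finsupp.mapDomain (QuotientGroup.mk : Γ → Γ ⧸ ms10N a j) x.coeff
  map_zero' := by simp
  map_add' x y := by simp [Finsupp.mapDomain_add]

theorem ms10p_single (g : Γ) (n : ℤ) :
    ms10p a j (MonoidAlgebra.single g n) = Finsupp.single (g : Γ ⧸ ms10N a j) n := by
  simp [ms10p, Finsupp.mapDomain_single]

theorem ms10_induction {P : MonoidAlgebra ℤ Γ → Prop} (h0 : P 0)
    (hadd : ∀ x y, P x → P y → P (x + y)) (hs : ∀ g n, P (MonoidAlgebra.single g n))
    (x : MonoidAlgebra ℤ Γ) : P x := by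
  rw [← MonoidAlgebra.sum_coeff_single x, Finsupp.sum]
  exact Finset.sum_induction _ P hadd h0 fun g _ => hs g _

theorem ms10_act_single (h g : Γ) (n : ℤ) :
    act h (MonoidAlgebra.single g n) = MonoidAlgebra.single (h * g) n := by
  rw [act_def, smul_eq_mul]
  simp [MonoidAlgebra.of, MonoidAlgebra.single_mul_single]

theorem ms10p_act (h : Γ) (x : MonoidAlgebra ℤ Γ) :
    ms10p a j (act h x) =
      Finsupp.mapDomain (fun q => (h : Γ ⧸ ms10N a j) * q) (ms10p a j x) := by
  induction x using ms10_induction with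
  | h0 => simp
  | hadd x y hx hy => rw [act_add, map_add, map_add, hx, hy, Finsupp.mapDomain_add]
  | hs g n => rw [ms10_act_single, ms10p_single, ms10p_single, Finsupp.mapDomain_single]; rfl

theorem ms10p_K {x : MonoidAlgebra ℤ Γ} (hx : x ∈ ms10K a j (MonoidAlgebra ℤ Γ)) :
    ms10p a j x = 0 := by
  unfold ms10K at hx
  induction hx using AddSubgroup.closure_induction with
  | mem y hy =>
    obtain ⟨i, hi, x, rfl⟩ := hy
    have h1 : ((a i : Γ) : Γ ⧸ ms10N a j) = 1 := by
      rw [QuotientGroup.eq_one_iff]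
      exact Subgroup.subset_closure ⟨i, hi, rfl⟩
    have h2 : (fun q : Γ ⧸ ms10N a j => (1 : Γ ⧸ ms10N a j) * q) = id := funext fun q => one_mul q
    rw [map_sub, ms10p_act, h1, h2, Finsupp.mapDomain_id, sub_self]
  | zero => simp
  | add x y _ _ hx hy => rw [map_add, hx, hy, add_zero]
  | neg x _ hx => rw [map_neg, hx, neg_zero]

/-- The section of the push-forward. -/
noncomputable def ms10t : (Γ ⧸ ms10N a j →₀ ℤ) →+ MonoidAlgebra ℤ Γ where
  toFun x := ∑ q ∈ x.support, MonoidAlgebra.single (Quotient.out q) (x q)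
  map_zero' := by simp
  map_add' x y := by
    classical
    change Finsupp.sum (x + y) (fun q n => MonoidAlgebra.single (Quotient.out q) n) =
      Finsupp.sum x (fun q n => MonoidAlgebra.single (Quotient.out q) n) +
      Finsupp.sum y (fun q n => MonoidAlgebra.single (Quotient.out q) n)
    rw [Finsupp.sum_add_index']
    · intro q; simp
    · intro q m n; simp

theorem ms10t_single (q : Γ ⧸ ms10N a j) (n : ℤ) :
    ms10t a j (Finsupp.single q n) = MonoidAlgebra.single (Quotient.out q) n := by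
  change Finsupp.sum (Finsupp.single q n) (fun q n => MonoidAlgebra.single (Quotient.out q) n) = _
  rw [Finsupp.sum_single_index]
  simp

theorem ms10_tp (x : MonoidAlgebra ℤ Γ) :
    ms10t a j (ms10p a j x) - x ∈ ms10K a j (MonoidAlgebra ℤ Γ) := by
  induction x using ms10_induction with
  | h0 => simp
  | hadd x y hx hy =>
    have := add_mem hx hy
    rw [map_add, map_add]
    convert this using 1
    abel
  | hs g n =>
    rw [ms10p_single, ms10t_single]
    have h1 : ((Quotient.out (g : Γ ⧸ ms10N a j) : Γ) : Γ ⧸ ms10N a j) = (g : Γ ⧸ ms10N a j) :=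
      QuotientGroup.out_eq' _
    have h2 : (Quotient.out (g : Γ ⧸ ms10N a j) : Γ) * g⁻¹ ∈ ms10N a j := by
      rw [← QuotientGroup.eq_one_iff, QuotientGroup.mk_mul, QuotientGroup.mk_inv, h1,
        mul_inv_cancel]
    have h3 := ms10K_of_mem_N a j h2 (MonoidAlgebra.single g n)
    rw [ms10_act_single] at h3
    simpa using h3

theorem ms10_finite {Q : Type*} [Group Q] (b : Q) (hb : ∀ k : ℕ, 0 < k → b ^ k ≠ 1)
    (y : Q →₀ ℤ) (hy : Finsupp.mapDomain (fun q => b * q) y = y) : y = 0 := by
  classical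
  by_contra hne
  obtain ⟨q, hq⟩ := Finsupp.support_nonempty_iff.2 hne
  have hval : ∀ q, y (b * q) = y q := by
    intro q
    conv_lhs => rw [← hy]
    exact Finsupp.mapDomain_apply (mul_right_injective b) y q
  have hpow : ∀ k : ℕ, b ^ k * q ∈ y.support := by
    intro k
    induction k with
    | zero => simpa using hq
    | succ k ih =>
      rw [Finsupp.mem_support_iff] at ih ⊢
      rw [pow_succ', mul_assoc, hval]
      exact ih
  have hinj : Function.Injective (fun k : ℕ => b ^ k * q) := by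
    have key : ∀ k l : ℕ, k < l → b ^ k * q ≠ b ^ l * q := by
      intro k l hkl h
      have h1 := mul_right_cancel h
      apply hb (l - k) (Nat.sub_pos_of_lt hkl)
      have h2 : b ^ l = b ^ k * b ^ (l - k) := by rw [← pow_add]; congr 1; omega
      rw [h2] at h1
      exact (mul_eq_left.1 h1.symm)
    intro k l h
    rcases lt_trichotomy k l with h' | h' | h'
    · exact absurd h (key k l h')
    · exact h'
    · exact absurd h.symm (key l k h')
  exact Set.infinite_range_of_injective hinj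
    ((Finset.finite_toSet y.support).subset (by rintro _ ⟨k, rfl⟩; exact hpow k))

theorem ms10_key_ring (ha : ∀ m : Fin r → ℤ, ∏ j, a j ^ m j = 1 → m = 0) (i : Fin r)
    (x : MonoidAlgebra ℤ Γ) (hx : act (a i : Γ) x - x ∈ ms10K a i (MonoidAlgebra ℤ Γ)) :
    x ∈ ms10K a i (MonoidAlgebra ℤ Γ) := by
  have h1 := ms10p_K a i hx
  rw [map_sub, sub_eq_zero, ms10p_act] at h1
  have h2 : ms10p a i x = 0 := by
    refine ms10_finite _ (fun k hk h => ?_) _ h1
    rw [← QuotientGroup.mk_pow, QuotientGroup.eq_one_iff] at h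
    exact ms10_infinite a ha i k hk h
  have h3 := ms10_tp a i x
  rw [h2, map_zero, zero_sub] at h3
  simpa using neg_mem h3

theorem ms10_key_free (ha : ∀ m : Fin r → ℤ, ∏ j, a j ^ m j = 1 → m = 0) (i : Fin r)
    {ι : Type*} (x : ι →₀ MonoidAlgebra ℤ Γ)
    (hx : act (a i : Γ) x - x ∈ ms10K a i (ι →₀ MonoidAlgebra ℤ Γ)) :
    x ∈ ms10K a i (ι →₀ MonoidAlgebra ℤ Γ) := by
  rw [← Finsupp.sum_single x, Finsupp.sum]
  refine sum_mem fun c _ => ?_
  have h1 := ms10K_map a i (Finsupp.lapply (R := MonoidAlgebra ℤ Γ) c) hx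
  rw [map_sub, map_act] at h1
  exact ms10K_map a i (Finsupp.lsingle (R := MonoidAlgebra ℤ Γ) c)
    (ms10_key_ring a ha i _ h1)

theorem ms10_key (ha : ∀ m : Fin r → ℤ, ∏ j, a j ^ m j = 1 → m = 0) (i : Fin r)
    [Module.Projective (MonoidAlgebra ℤ Γ) M] (x : M)
    (hx : act (a i : Γ) x - x ∈ ms10K a i M) : x ∈ ms10K a i M := by
  obtain ⟨s, hs⟩ := (Module.projective_def (R := MonoidAlgebra ℤ Γ) (P := M)).1 inferInstance
  have h1 := ms10K_map a i s hx
  rw [map_sub, map_act] at h1
  have h2 := ms10K_map a i (Finsupp.linearCombination (MonoidAlgebra ℤ Γ) id)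
    (ms10_key_free a ha i _ h1)
  rwa [hs x] at h2

end K

variable {Γ : Type u} [Group Γ] {C : Type v} [AddCommGroup C] [Module (MonoidAlgebra ℤ Γ) C]

/-- MS-10 from null-homotopies. -/
theorem ms10_of_homotopies [Module.Projective (MonoidAlgebra ℤ Γ) C] (G : GrRes Γ C) {r : ℕ}
    (a : Fin r → Subgroup.center Γ) (ha : ∀ m : Fin r → ℤ, ∏ j, a j ^ m j = 1 → m = 0)
    (hom : ∀ j : Fin r, ∃ h : C →ₗ[MonoidAlgebra ℤ Γ] C,
      (∀ (i : ℤ) (x : C), h (G.π i x) = G.π (i + 1) (h x)) ∧
      ∀ x, G.d (h x) + h (G.d x) = act (a j : Γ) x - x) :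
    r ≤ G.n := by
  by_contra hlt
  rw [not_le] at hlt
  choose h hdeg hh using hom
  have main : ∀ j : ℕ, j ≤ r → ∃ c : C, G.π j c = c ∧ G.d c ∈ ms10K a j C ∧
      ∀ f : C, ∀ k ∈ ms10K a j C, c ≠ G.d f + k := by
    intro j
    induction j with
    | zero =>
      intro _
      obtain ⟨c, hc⟩ := G.ε_surj 1
      refine ⟨G.π 0 c, by simpa using G.π_self 0 c, ?_, ?_⟩
      · rw [G.d_π, G.π_neg _ _ (by norm_num)]
        exact zero_mem _
      · intro f k hk he
        rw [ms10K_zero a hk, add_zero] at he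
        have h1 := ((G.exact (G.π 0 c)).2 ⟨f, he.symm⟩).2
        rw [G.ε_π, hc] at h1
        exact one_ne_zero h1
    | succ j ih =>
      intro hj
      obtain ⟨c, hc1, hc2, hc3⟩ := ih (by omega)
      have hjr : j < r := by omega
      set i : Fin r := ⟨j, hjr⟩ with hi
      have hij : (i : ℕ) = j := rfl
      have e1 : G.d (h i c) = (act (a i : Γ) c - c) - h i (G.d c) := by
        rw [← hh i c]; abel
      refine ⟨h i c, ?_, ?_, ?_⟩
      · have := hdeg i j c
        rw [hc1] at this
        rw [this]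
        push_cast
        exact (G.π_self _ _).symm ▸ rfl
      · rw [e1]
        refine sub_mem (ms10K_of a (j + 1) (by rw [hij]; omega) c) ?_
        exact ms10K_mono a j (by omega) (ms10K_map a j (h i) hc2)
      · intro f k hk he
        obtain ⟨k', hk', g, hg⟩ := ms10K_succ a (i := i) (by rw [hij]; exact hk)
        rw [hij] at hk'
        have e2 : act (a i : Γ) (c - G.d g) - (c - G.d g) = h i (G.d c) + G.d k' := by
          have e3 : G.d (h i c) = G.d k' + (act (a i : Γ) (G.d g) - G.d g) := by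
            rw [he, hg, map_add, map_add, map_sub, map_act]
            have : G.d (G.d f) = 0 := ((G.exact (G.d f)).2 ⟨f, rfl⟩).1
            rw [this, zero_add]
          rw [e1] at e3
          rw [act_sub]
          have e4 : act (a i : Γ) c - c = h i (G.d c) + (G.d k' + (act (a i : Γ) (G.d g) - G.d g)) := by
            rw [← e3]; abel
          calc act (a i : Γ) c - act (a i : Γ) (G.d g) - (c - G.d g)
              = (act (a i : Γ) c - c) - (act (a i : Γ) (G.d g) - G.d g) := by abel
            _ = h i (G.d c) + G.d k' := by rw [e4]; abel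
        have e5 : c - G.d g ∈ ms10K a i C := by
          apply ms10_key a ha i
          rw [e2, hij]
          exact add_mem (ms10K_map a j (h i) hc2) (ms10K_map a j G.d hk')
        rw [hij] at e5
        exact hc3 g _ e5 (by abel)
  obtain ⟨c, hc1, hc2, hc3⟩ := main (G.n + 1) hlt
  rw [G.π_big _ _ (by push_cast; omega)] at hc1
  exact hc3 0 0 (zero_mem _) (by rw [← hc1]; simp)

/-- The action of a central element minus the identity as a linear map. -/
noncomputable def ms10w (b : Subgroup.center Γ) : C →ₗ[MonoidAlgebra ℤ Γ] C where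
  toFun x := act (b : Γ) x - x
  map_add' x y := by rw [act_add]; abel
  map_smul' s x := by
    rw [RingHom.id_apply, smul_sub]
    congr 1
    rw [smul_eq_sum s x, act_sum, smul_eq_sum s (act (b : Γ) x)]
    refine Finset.sum_congr rfl fun g _ => ?_
    rw [act_zsmul, act_comm_of_center]

/-- MS-10: independent central elements are at most as many as the length of the resolution. -/
theorem rank_le [Module.Projective (MonoidAlgebra ℤ Γ) C] (G : GrRes Γ C) {r : ℕ}
    (a : Fin r → Subgroup.center Γ) (ha : ∀ m : Fin r → ℤ, ∏ j, a j ^ m j = 1 → m = 0) :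
    r ≤ G.n := by
  refine ms10_of_homotopies G a ha fun j => ?_
  have hw : ∀ x : C, ms10w (a j) x = act (a j : Γ) x - x := fun _ => rfl
  obtain ⟨h, h1, h2⟩ := null_homotopy G 0 (ms10w (C := C) (a j))
    (fun i x => by
      rw [Nat.cast_zero, add_zero, hw, hw, map_sub, map_act])
    (fun x => by rw [hw, hw, map_sub, map_act])
    (fun _ x => by rw [hw, map_sub, G.ε_act, sub_self])
  refine ⟨h, fun i x => ?_, fun x => ?_⟩
  · rw [h1]; simp
  · rw [h2, hw]

end Pool.Agent.Helper27.Mess
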